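import Mathlib

/-! On every forest the four skew forcing parameters agree; they are equal to the nullity of the
adjacency matrix. -/

open Finset

namespace Pool.Agent.Results.MP_aa1485_co.ForestSkewForcing

section Defs

variable {V : Type*} (G : SimpleGraph V)

/-- One round of the skew forcing rule applied to the set `B` of blue vertices: a white vertex
`w` turns blue if it is the only white neighbour of some vertex `u` (of either colour). -/
def step (B : Set V) : Set V :=
  B ∪ {w | w ∉ B ∧ ∃ u, G.Adj u w ∧ ∀ w', G.Adj u w' → w' ∉ B → w' = w}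

/-- `S` is a skew forcing set: repeatedly applying the rule turns every vertex blue. -/
def IsSkewForcing (S : Finset V) : Prop := ∃ n : ℕ, (step G)^[n] (S : Set V) = Set.univ

/-- `F` is a skew fort: nonempty, and no vertex has exactly one neighbour in `F`. -/
def IsSkewFort (F : Finset V) : Prop :=
  F.Nonempty ∧ ∀ v, ¬ ∃ a, (a ∈ F ∧ G.Adj v a) ∧ ∀ b, b ∈ F ∧ G.Adj v b → b = a

/-- `F` is a private skew fort of `u` relative to `S`: `F ∩ S = {u}`. -/
def IsPrivateFort (S : Finset V) (u : V) (F : Finset V) : Prop :=
  IsSkewFort G F ∧ ∀ x, (x ∈ F ∧ x ∈ S) ↔ x = u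

/-- `S` is a `Z₋Ir`-set: every `u ∈ S` has a private skew fort relative to `S`. -/
def IsIr (S : Finset V) : Prop := ∀ u ∈ S, ∃ F, IsPrivateFort G S u F

/-- maximal `Z₋Ir`-sets -/
def IsMaxIr (S : Finset V) : Prop := IsIr G S ∧ ∀ S', IsIr G S' → S ⊆ S' → S' = S

/-- inclusion-minimal skew forcing sets -/
def IsMinForcing (S : Finset V) : Prop :=
  IsSkewForcing G S ∧ ∀ S', IsSkewForcing G S' → S' ⊆ S → S' = S

/-- the lower skew forcing irredundance number `z₋ir` -/
noncomputable def zir : ℕ := sInf {k | ∃ S : Finset V, IsMaxIr G S ∧ S.card = k}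

/-- the upper skew forcing irredundance number `Z₋IR` -/
noncomputable def ZIR : ℕ := sSup {k | ∃ S : Finset V, IsMaxIr G S ∧ S.card = k}

/-- the skew forcing number `Z₋` -/
noncomputable def Zm : ℕ := sInf {k | ∃ S : Finset V, IsSkewForcing G S ∧ S.card = k}

/-- the upper skew forcing number -/
noncomputable def Zup : ℕ := sSup {k | ∃ S : Finset V, IsMinForcing G S ∧ S.card = k}

/-- the kernel of the adjacency matrix, as functions whose sum over every neighbourhood is zero -/
def ker [Fintype V] [DecidableRel G.Adj] : Submodule ℝ (V → ℝ) where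
  carrier := {x | ∀ v, ∑ w ∈ G.neighborFinset v, x w = 0}
  add_mem' := by
    intro a b ha hb v
    simp only [Pi.add_apply, Finset.sum_add_distrib, ha v, hb v, add_zero]
  zero_mem' := by intro v; simp
  smul_mem' := by
    intro c x hx v
    simp only [Pi.smul_apply, smul_eq_mul, ← Finset.mul_sum, hx v, mul_zero]

end Defs

section Forcing

variable {V : Type*} [Fintype V] {G : SimpleGraph V}

lemma subset_step (B : Set V) : B ⊆ step G B := Set.subset_union_left

/-- forcing sets are exactly the sets meeting every skew fort -/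
lemma forcing_iff (S : Finset V) :
    IsSkewForcing G S ↔ ∀ F, IsSkewFort G F → ∃ x ∈ F, x ∈ S := by
  classical
  constructor
  · rintro ⟨n, hn⟩ F hF
    by_contra hcon
    push Not at hcon
    have key : ∀ n, ∀ x ∈ F, x ∉ (step G)^[n] (S : Set V) := by
      intro n
      induction n with
      | zero => intro x hx h; exact hcon x hx h
      | succ n ih =>
        intro x hx h
        rw [Function.iterate_succ_apply'] at h
        rcases h with h | ⟨_, u, hux, hu⟩
        · exact ih x hx h
        · apply hF.2 u
          refine ⟨x, ⟨hx, hux⟩, ?_⟩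
          rintro b ⟨hb, hub⟩
          exact hu b hub (ih b hb)
    obtain ⟨x, hx⟩ := hF.1
    apply key n x hx
    rw [hn]
    trivial
  · intro h
    -- the sequence stabilises
    have hmono : ∀ n, (step G)^[n] (S : Set V) ⊆ (step G)^[n + 1] (S : Set V) := by
      intro n
      rw [Function.iterate_succ_apply']
      exact subset_step _
    have hS : ∀ n, (S : Set V) ⊆ (step G)^[n] (S : Set V) := by
      intro n
      induction n with
      | zero => exact subset_rfl
      | succ n ih => exact ih.trans (hmono n)
    obtain ⟨n, hn⟩ : ∃ n, (step G)^[n + 1] (S : Set V) = (step G)^[n] (S : Set V) := by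
      by_contra hcon
      push Not at hcon
      have hcard : ∀ n, n ≤ ((step G)^[n] (S : Set V)).ncard := by
        intro n
        induction n with
        | zero => exact Nat.zero_le _
        | succ n ih =>
          have : ((step G)^[n] (S : Set V)).ncard < ((step G)^[n + 1] (S : Set V)).ncard :=
            Set.ncard_lt_ncard ((hmono n).ssubset_of_ne (Ne.symm (hcon n))) (Set.toFinite _)
          omega
      have h1 := hcard (Fintype.card V + 1)
      have h2 : ((step G)^[Fintype.card V + 1] (S : Set V)).ncard ≤ Fintype.card V := by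
        rw [← Nat.card_eq_fintype_card]
        exact Set.ncard_le_card _
      omega
    refine ⟨n, ?_⟩
    rw [Function.iterate_succ_apply'] at hn
    set B := (step G)^[n] (S : Set V) with hB
    by_contra hne
    set F : Finset V := Finset.univ.filter (fun x => x ∉ B) with hF
    have hmem : ∀ x, x ∈ F ↔ x ∉ B := fun x => by simp [hF]
    have hfort : IsSkewFort G F := by
      refine ⟨?_, ?_⟩
      · rw [← Ne, Set.ne_univ_iff_exists_notMem] at hne
        obtain ⟨x, hx⟩ := hne
        exact ⟨x, (hmem x).2 hx⟩
      · rintro v ⟨a, ⟨ha, hva⟩, hu⟩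
        have : a ∈ step G B := by
          right
          refine ⟨(hmem a).1 ha, v, hva, ?_⟩
          intro w' hw' hw'B
          exact hu w' ⟨(hmem w').2 hw'B, hw'⟩
        rw [hn] at this
        exact (hmem a).1 ha this
    obtain ⟨x, hxF, hxS⟩ := h F hfort
    exact (hmem x).1 hxF (hS n hxS)

end Forcing

section Kernel

variable {V : Type*} [Fintype V] [DecidableEq V] {G : SimpleGraph V} [DecidableRel G.Adj]

/-- supports of kernel vectors are skew forts -/
lemma support_fort {x : V → ℝ} (hx : x ∈ ker G) (hne : x ≠ 0) :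
    IsSkewFort G (Finset.univ.filter fun v => x v ≠ 0) := by
  refine ⟨?_, ?_⟩
  · obtain ⟨v, hv⟩ : ∃ v, x v ≠ 0 := by
      by_contra h
      push Not at h
      exact hne (funext h)
    exact ⟨v, by simp [hv]⟩
  · rintro v ⟨a, ⟨ha, hva⟩, hu⟩
    have h1 := hx v
    rw [Finset.sum_eq_single a] at h1
    · simp only [Finset.mem_filter, Finset.mem_univ, true_and] at ha
      exact ha h1
    · intro b hb hba
      by_contra h0
      exact hba (hu b ⟨by simp [h0], (SimpleGraph.mem_neighborFinset _ _ _).1 hb⟩)
    · intro h
      exact absurd ((SimpleGraph.mem_neighborFinset _ _ _).2 hva) h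

/-- In a forest a path can be extended by every neighbour of its end other than the previous
vertex. -/
lemma path_extend (hG : G.IsAcyclic) {w v c : V} {p : G.Walk w v} (hp : p.IsPath)
    (hvc : G.Adj v c) (hc : c ≠ p.penultimate) : (p.concat hvc).IsPath := by
  apply hp.concat
  intro h
  exact hc (hG.eq_penultimate_of_adj_end hp hvc h)

/-- In a forest every element of a skew fort is in the support of a kernel vector supported in
the fort. -/
lemma exists_kernel (hG : G.IsAcyclic) {F : Finset V} (hF : IsSkewFort G F) {w : V}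
    (hw : w ∈ F) : ∃ x ∈ ker G, (∀ v, v ∉ F → x v = 0) ∧ x w ≠ 0 := by
  classical
  by_contra hcon
  push Not at hcon
  -- the operator restricted to functions supported in `F`
  let φ : (V → ℝ) →ₗ[ℝ] (V → ℝ) :=
    { toFun := fun x v => ∑ u ∈ G.neighborFinset v, (if u ∈ F then x u else 0)
      map_add' := by
        intro a b
        funext v
        simp only [Pi.add_apply]
        rw [← Finset.sum_add_distrib]
        refine Finset.sum_congr rfl fun u _ => ?_
        split_ifs <;> simp
      map_smul' := by
        intro c a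
        funext v
        simp only [Pi.smul_apply, smul_eq_mul, RingHom.id_apply, Finset.mul_sum]
        refine Finset.sum_congr rfl fun u _ => ?_
        split_ifs <;> simp }
  let g : (V → ℝ) →ₗ[ℝ] ℝ := LinearMap.proj w
  have hker : ∀ x, φ x = 0 → g x = 0 := by
    intro x hx
    have h1 := hcon (fun u => if u ∈ F then x u else 0) (fun v => congrFun hx v)
      (fun v hv => by simp [hv])
    change x w = 0
    simpa [hw] using h1
  have hg : g ∈ (LinearMap.ker φ).dualAnnihilator := by
    rw [Submodule.mem_dualAnnihilator]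
    intro x hx
    exact hker x (LinearMap.mem_ker.1 hx)
  rw [← LinearMap.range_dualMap_eq_dualAnnihilator_ker] at hg
  obtain ⟨h, hh⟩ := hg
  set y : V → ℝ := fun v => h (Pi.single v 1) with hy
  have hval : ∀ u ∈ F, ∑ v ∈ G.neighborFinset u, y v = if u = w then 1 else 0 := by
    intro u hu
    have h1 : g (Pi.single u 1) = h (φ (Pi.single u 1)) := by
      rw [← hh]; rfl
    have h2 : φ (Pi.single u 1) = ∑ v ∈ G.neighborFinset u, Pi.single v (1 : ℝ) := by
      funext v
      change ∑ z ∈ G.neighborFinset v, (if z ∈ F then (Pi.single u 1 : V → ℝ) z else 0) = _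
      rw [Finset.sum_apply]
      by_cases hvu : G.Adj v u
      · rw [Finset.sum_eq_single u, Finset.sum_eq_single v]
        · simp [hu]
        · intro b _ hbv
          simp [Pi.single_apply, Ne.symm hbv]
        · intro hn
          exact absurd ((SimpleGraph.mem_neighborFinset _ _ _).2 hvu.symm) hn
        · intro b _ hbu
          simp [Pi.single_apply, hbu]
        · intro hn
          exact absurd ((SimpleGraph.mem_neighborFinset _ _ _).2 hvu) hn
      · rw [Finset.sum_eq_zero, Finset.sum_eq_zero]
        · intro b hb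
          have : v ≠ b := by
            rintro rfl
            exact hvu ((SimpleGraph.mem_neighborFinset _ _ _).1 hb).symm
          simp [Pi.single_apply, this]
        · intro b hb
          have : b ≠ u := by
            rintro rfl
            exact hvu ((SimpleGraph.mem_neighborFinset _ _ _).1 hb)
          simp [Pi.single_apply, this]
    have h3 : g (Pi.single u 1) = if u = w then 1 else 0 := by
      change (Pi.single u 1 : V → ℝ) w = _
      simp [Pi.single_apply, eq_comm]
    rw [← h3, h1, h2, map_sum]
  -- longer and longer paths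
  have hpath : ∀ n : ℕ, ∃ (v : V) (p : G.Walk w v), p.IsPath ∧ p.length = 2 * n + 1 ∧ y v ≠ 0 ∧
      p.penultimate ∈ F := by
    intro n
    induction n with
    | zero =>
      have h1 := hval w hw
      rw [if_pos rfl] at h1
      obtain ⟨v, hv, hyv⟩ : ∃ v ∈ G.neighborFinset w, y v ≠ 0 := by
        by_contra hc
        push Not at hc
        rw [Finset.sum_eq_zero hc] at h1
        exact zero_ne_one h1
      have hadj : G.Adj w v := (SimpleGraph.mem_neighborFinset _ _ _).1 hv
      refine ⟨v, hadj.toWalk, ?_, ?_, hyv, ?_⟩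
      · exact SimpleGraph.Walk.IsPath.of_adj hadj
      · simp
      · simpa using hw
    | succ n ih =>
      obtain ⟨v, p, hp, hlen, hyv, hpen⟩ := ih
      have hnil : ¬ p.Nil := by
        rw [SimpleGraph.Walk.not_nil_iff_lt_length]
        omega
      have hadjp : G.Adj v p.penultimate := (p.adj_penultimate hnil).symm
      obtain ⟨c, hcF, hvc, hcne⟩ : ∃ c, c ∈ F ∧ G.Adj v c ∧ c ≠ p.penultimate := by
        by_contra hc
        push Not at hc
        apply hF.2 v
        exact ⟨p.penultimate, ⟨hpen, hadjp⟩, fun b hb => hc b hb.1 hb.2⟩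
      have hp' := path_extend hG hp hvc hcne
      have hcw : c ≠ w := by
        intro h
        have h1 : (p.concat hvc).length = 2 * n + 2 := by
          rw [SimpleGraph.Walk.length_concat, hlen]
        subst h
        have h2 : (p.concat hvc).Nil := (SimpleGraph.Walk.isPath_iff_nil).1 hp'
        rw [← SimpleGraph.Walk.length_eq_zero_iff] at h2
        omega
      have h1 := hval c hcF
      rw [if_neg hcw] at h1
      obtain ⟨v', hv', hne', hyv'⟩ : ∃ v' ∈ G.neighborFinset c, v' ≠ v ∧ y v' ≠ 0 := by
        by_contra hc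
        push Not at hc
        rw [Finset.sum_eq_single v] at h1
        · exact hyv h1
        · intro b hb hbv
          exact hc b hb hbv
        · intro hn
          exact absurd ((SimpleGraph.mem_neighborFinset _ _ _).2 hvc.symm) hn
      have hadj' : G.Adj c v' := (SimpleGraph.mem_neighborFinset _ _ _).1 hv'
      have hpen' : (p.concat hvc).penultimate = v := by
        simp
      have hp'' := path_extend hG hp' hadj' (by rw [hpen']; exact hne')
      refine ⟨v', (p.concat hvc).concat hadj', hp'', ?_, hyv', ?_⟩
      · rw [SimpleGraph.Walk.length_concat, SimpleGraph.Walk.length_concat, hlen]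
        ring
      · have : ((p.concat hvc).concat hadj').penultimate = c := by simp
        rw [this]
        exact hcF
  obtain ⟨v, p, hp, hlen, _, _⟩ := hpath (Fintype.card V)
  have := hp.length_lt
  omega

end Kernel

section Algebra

variable {V : Type*} [Fintype V] [DecidableEq V] (K : Submodule ℝ (V → ℝ))

/-- the coordinates in `S` are independent on `K` -/
def Indep (S : Finset V) : Prop := ∀ u ∈ S, ∃ x ∈ K, x u ≠ 0 ∧ ∀ v ∈ S, v ≠ u → x v = 0

/-- the coordinates in `S` separate the points of `K` -/
def Sep (S : Finset V) : Prop := ∀ x ∈ K, (∀ v ∈ S, x v = 0) → x = 0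

lemma card_le_of_indep {S : Finset V} (h : Indep K S) : S.card ≤ Module.finrank ℝ K := by
  classical
  choose! x hxK hxu hx0 using h
  let f : S → K := fun u => ⟨x u, hxK u u.2⟩
  have hli : LinearIndependent ℝ f := by
    rw [Fintype.linearIndependent_iff]
    intro c hc u
    have h1 : ((∑ i, c i • f i : K) : V → ℝ) u = 0 := by rw [hc]; rfl
    rw [Submodule.coe_sum, Finset.sum_apply, Finset.sum_eq_single u] at h1
    · have h2 : c u * x u u = 0 := h1
      rcases mul_eq_zero.1 h2 with h3 | h3
      · exact h3
      · exact absurd h3 (hxu u u.2)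
    · intro b _ hb
      change c b * x b u = 0
      rw [hx0 b b.2 u u.2 (fun h => hb (Subtype.ext h.symm)), mul_zero]
    · intro hn
      exact absurd (Finset.mem_univ _) hn
  have := hli.fintype_card_le_finrank
  simpa using this

lemma finrank_le_of_sep {S : Finset V} (h : Sep K S) : Module.finrank ℝ K ≤ S.card := by
  classical
  let ρ : K →ₗ[ℝ] (S → ℝ) :=
    { toFun := fun x u => (x : V → ℝ) u
      map_add' := fun a b => rfl
      map_smul' := fun c a => rfl }
  have hinj : Function.Injective ρ := by
    rw [← LinearMap.ker_eq_bot, LinearMap.ker_eq_bot']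
    intro x hx
    apply Subtype.ext
    exact h x x.2 (fun v hv => congrFun hx ⟨v, hv⟩)
  have := LinearMap.finrank_le_finrank_of_injective hinj
  simpa using this

lemma sep_of_max {S : Finset V} (h : Indep K S) (hmax : ∀ S', Indep K S' → S ⊆ S' → S' = S) :
    Sep K S := by
  classical
  intro x hx hxS
  by_contra hne
  obtain ⟨w, hw⟩ : ∃ w, x w ≠ 0 := by
    by_contra hc
    push Not at hc
    exact hne (funext hc)
  have hwS : w ∉ S := fun hmem => hw (hxS w hmem)
  have hins : Indep K (insert w S) := by
    intro u hu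
    rcases Finset.mem_insert.1 hu with rfl | huS
    · refine ⟨x, hx, hw, ?_⟩
      intro v hv hvu
      rcases Finset.mem_insert.1 hv with h1 | h1
      · exact absurd h1 hvu
      · exact hxS v h1
    · obtain ⟨y, hy, hyu, hy0⟩ := h u huS
      refine ⟨y - (y w / x w) • x, K.sub_mem hy (K.smul_mem _ hx), ?_, ?_⟩
      · simp only [Pi.sub_apply, Pi.smul_apply, smul_eq_mul, hxS u huS, mul_zero, sub_zero]
        exact hyu
      · intro v hv hvu
        simp only [Pi.sub_apply, Pi.smul_apply, smul_eq_mul]
        rcases Finset.mem_insert.1 hv with h1 | h1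
        · subst h1
          field_simp
          ring
        · rw [hxS v h1, hy0 v h1 hvu]
          ring
  have := hmax _ hins (Finset.subset_insert _ _)
  exact hwS (this ▸ Finset.mem_insert_self w S)

lemma indep_of_min {S : Finset V} (h : Sep K S) (hmin : ∀ S', Sep K S' → S' ⊆ S → S' = S) :
    Indep K S := by
  classical
  intro u hu
  have h1 : ¬ Sep K (S.erase u) := by
    intro hs
    have := hmin _ hs (Finset.erase_subset _ _)
    exact Finset.notMem_erase u S (this.symm ▸ hu)
  unfold Sep at h1
  push Not at h1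
  obtain ⟨x, hx, hx0, hne⟩ := h1
  refine ⟨x, hx, ?_, ?_⟩
  · intro hxu
    apply hne
    apply h x hx
    intro v hv
    by_cases hvu : v = u
    · rw [hvu]; exact hxu
    · exact hx0 v (Finset.mem_erase.2 ⟨hvu, hv⟩)
  · intro v hv hvu
    exact hx0 v (Finset.mem_erase.2 ⟨hvu, hv⟩)

lemma exists_max_indep : ∃ S, Indep K S ∧ ∀ S', Indep K S' → S ⊆ S' → S' = S := by
  classical
  obtain ⟨S, hS, hmax⟩ := Finset.exists_max_image
    ((Finset.univ : Finset (Finset V)).filter fun S => Indep K S) Finset.card
    ⟨∅, by
      rw [Finset.mem_filter]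
      exact ⟨Finset.mem_univ _, fun u hu => absurd hu (Finset.notMem_empty u)⟩⟩
  rw [Finset.mem_filter] at hS
  refine ⟨S, hS.2, ?_⟩
  intro S' hS' hsub
  exact (Finset.eq_of_subset_of_card_le hsub (hmax S' (by simp [hS']))).symm

lemma exists_min_sep : ∃ S, Sep K S ∧ ∀ S', Sep K S' → S' ⊆ S → S' = S := by
  classical
  obtain ⟨S, hS, hmin⟩ := Finset.exists_min_image
    ((Finset.univ : Finset (Finset V)).filter fun S => Sep K S) Finset.card
    ⟨Finset.univ, by
      rw [Finset.mem_filter]
      exact ⟨Finset.mem_univ _, fun x _ hx => funext fun v => hx v (Finset.mem_univ v)⟩⟩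
  rw [Finset.mem_filter] at hS
  refine ⟨S, hS.2, ?_⟩
  intro S' hS' hsub
  exact Finset.eq_of_subset_of_card_le hsub (hmin S' (by simp [hS']))

end Algebra

section Final

variable {V : Type*} [Fintype V] [DecidableEq V] {G : SimpleGraph V} [DecidableRel G.Adj]

lemma isIr_iff (hG : G.IsAcyclic) (S : Finset V) : IsIr G S ↔ Indep (ker G) S := by
  classical
  constructor
  · intro h u hu
    obtain ⟨F, hF, hFS⟩ := h u hu
    have huF : u ∈ F := ((hFS u).2 rfl).1
    obtain ⟨x, hx, hx0, hxu⟩ := exists_kernel hG hF huF
    refine ⟨x, hx, hxu, ?_⟩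
    intro v hv hvu
    exact hx0 v (fun hvF => hvu ((hFS v).1 ⟨hvF, hv⟩))
  · intro h u hu
    obtain ⟨x, hx, hxu, hx0⟩ := h u hu
    refine ⟨Finset.univ.filter fun v => x v ≠ 0, support_fort hx ?_, ?_⟩
    · rintro rfl
      exact hxu rfl
    · intro v
      constructor
      · rintro ⟨hv, hvS⟩
        rw [Finset.mem_filter] at hv
        by_contra hvu
        exact hv.2 (hx0 v hvS hvu)
      · rintro rfl
        exact ⟨by simp [hxu], hu⟩

lemma isSkewForcing_iff (hG : G.IsAcyclic) (S : Finset V) :
    IsSkewForcing G S ↔ Sep (ker G) S := by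
  classical
  rw [forcing_iff]
  constructor
  · intro h x hx hx0
    by_contra hne
    obtain ⟨v, hv, hvS⟩ := h _ (support_fort hx hne)
    rw [Finset.mem_filter] at hv
    exact hv.2 (hx0 v hvS)
  · intro h F hF
    obtain ⟨w, hw⟩ := hF.1
    obtain ⟨x, hx, hx0, hxw⟩ := exists_kernel hG hF hw
    by_contra hcon
    push Not at hcon
    apply hxw
    rw [h x hx (fun v hv => hx0 v (fun hvF => hcon v hvF hv))]
    rfl

lemma zir_eq (hG : G.IsAcyclic) : zir G = Module.finrank ℝ (ker G) ∧
    ZIR G = Module.finrank ℝ (ker G) := by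
  have hset : {k | ∃ S : Finset V, IsMaxIr G S ∧ S.card = k} = {Module.finrank ℝ (ker G)} := by
    have hmx : ∀ S, IsMaxIr G S ↔ (Indep (ker G) S ∧
        ∀ S', Indep (ker G) S' → S ⊆ S' → S' = S) := by
      intro S
      unfold IsMaxIr
      simp only [isIr_iff hG]
    apply Set.eq_singleton_iff_unique_mem.2
    constructor
    · obtain ⟨S, hS, hmax⟩ := exists_max_indep (ker G)
      refine ⟨S, (hmx S).2 ⟨hS, hmax⟩, ?_⟩
      exact le_antisymm (card_le_of_indep _ hS) (finrank_le_of_sep _ (sep_of_max _ hS hmax))
    · rintro k ⟨S, hS, rfl⟩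
      obtain ⟨hS, hmax⟩ := (hmx S).1 hS
      exact le_antisymm (card_le_of_indep _ hS) (finrank_le_of_sep _ (sep_of_max _ hS hmax))
  unfold zir ZIR
  rw [hset]
  exact ⟨csInf_singleton _, csSup_singleton _⟩

lemma zup_eq (hG : G.IsAcyclic) : Zup G = Module.finrank ℝ (ker G) := by
  have hset : {k | ∃ S : Finset V, IsMinForcing G S ∧ S.card = k} =
      {Module.finrank ℝ (ker G)} := by
    have hmx : ∀ S, IsMinForcing G S ↔ (Sep (ker G) S ∧
        ∀ S', Sep (ker G) S' → S' ⊆ S → S' = S) := by
      intro S
      unfold IsMinForcing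
      simp only [isSkewForcing_iff hG]
    apply Set.eq_singleton_iff_unique_mem.2
    constructor
    · obtain ⟨S, hS, hmin⟩ := exists_min_sep (ker G)
      refine ⟨S, (hmx S).2 ⟨hS, hmin⟩, ?_⟩
      exact le_antisymm (card_le_of_indep _ (indep_of_min _ hS hmin)) (finrank_le_of_sep _ hS)
    · rintro k ⟨S, hS, rfl⟩
      obtain ⟨hS, hmin⟩ := (hmx S).1 hS
      exact le_antisymm (card_le_of_indep _ (indep_of_min _ hS hmin)) (finrank_le_of_sep _ hS)
  unfold Zup
  rw [hset]
  exact csSup_singleton _

lemma zm_eq (hG : G.IsAcyclic) : Zm G = Module.finrank ℝ (ker G) := by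
  unfold Zm
  apply le_antisymm
  · obtain ⟨S, hS, hmin⟩ := exists_min_sep (ker G)
    apply Nat.sInf_le
    refine ⟨S, (isSkewForcing_iff hG S).2 hS, ?_⟩
    exact le_antisymm (card_le_of_indep _ (indep_of_min _ hS hmin)) (finrank_le_of_sep _ hS)
  · apply le_csInf
    · obtain ⟨S, hS, hmin⟩ := exists_min_sep (ker G)
      exact ⟨S.card, S, (isSkewForcing_iff hG S).2 hS, rfl⟩
    · rintro k ⟨S, hS, rfl⟩
      exact finrank_le_of_sep _ ((isSkewForcing_iff hG S).1 hS)

end Final

/-- For every forest the four skew forcing parameters are equal; their common value is the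
nullity of the adjacency matrix. -/
theorem result (V : Type*) [Fintype V] [DecidableEq V] [Nonempty V] (T : SimpleGraph V)
    [DecidableRel T.Adj] (hT : T.IsAcyclic) :
    zir T = Zm T ∧ Zm T = Zup T ∧ Zup T = ZIR T ∧ Zm T = Module.finrank ℝ (ker T) := by
  have h1 := zir_eq hT
  have h2 := zm_eq hT
  have h3 := zup_eq hT
  refine ⟨?_, ?_, ?_, h2⟩
  · rw [h1.1, h2]
  · rw [h2, h3]
  · rw [h3, h1.2]

end Pool.Agent.Results.MP_aa1485_co.ForestSkewForcing
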